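import Pool.Agent.DX17.Main

set_option autoImplicit false

namespace Pool.Agent.Results.MP_d6084f_co.DenseFamilies

/-- A 7-wise 2-coverable family `F` of `k`-sets such that a proportion `δ` of the `k + r`-subsets
of a finite set `X` contain a member of `F` has a transversal of size at most
`3k/4 + r + 7 √((k + r) log (4/δ)) + 3`, if all members lie in `X` or `|X| ≥ 17 (k + r) / 8`. -/
theorem result (k r : ℕ) (F : Set (Finset ℕ)) (hk : ∀ A ∈ F, A.card = k)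
    (hF : ∀ G : Finset (Finset ℕ), (↑G : Set (Finset ℕ)) ⊆ F → G.card ≤ 7 →
      ∃ x y : ℕ, ∀ A ∈ G, x ∈ A ∨ y ∈ A)
    (X : Finset ℕ) (δ : ℝ) (hδ : 0 < δ)
    (hd : δ * (X.card.choose (k + r) : ℝ) ≤
      ({B : Finset ℕ | B ⊆ X ∧ B.card = k + r ∧ ∃ A ∈ F, A ⊆ B}.ncard : ℝ))
    (hX : (∀ A ∈ F, A ⊆ X) ∨ 17 * (k + r) ≤ 8 * X.card) :
    ∃ T : Finset ℕ, 4 * (T.card : ℝ) ≤
        3 * k + 4 * r + 28 * Real.sqrt ((k + r) * Real.log (4 / δ)) + 12 ∧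
      ∀ A ∈ F, ∃ t ∈ T, t ∈ A :=
  Pool.Agent.DX17.main k r F hk hF X δ hδ hd hX

end Pool.Agent.Results.MP_d6084f_co.DenseFamilies
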