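import Pool.Agent.TX17.Main85

set_option autoImplicit false

namespace Pool.Agent.Results.MP_d6084f_co.GeneralUpperBound

/-- Every 7-wise 2-coverable family of `k`-sets has a transversal of size at most
`(17 k + 179) / 20`. -/
theorem result (k : ℕ) (F : Set (Finset ℕ)) (hk : ∀ A ∈ F, A.card = k)
    (hF : ∀ G : Finset (Finset ℕ), (↑G : Set (Finset ℕ)) ⊆ F → G.card ≤ 7 →
      ∃ x y : ℕ, ∀ A ∈ G, x ∈ A ∨ y ∈ A) :
    ∃ T : Finset ℕ, 20 * T.card ≤ 17 * k + 179 ∧ ∀ A ∈ F, ∃ t ∈ T, t ∈ A :=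
  Pool.Agent.TX17.bound85 k F hk hF

end Pool.Agent.Results.MP_d6084f_co.GeneralUpperBound
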