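import Pool.Agent.DY17.Main

set_option autoImplicit false

namespace Pool.Agent.Results.MP_d6084f_co.MembersInRandomSets

open Classical in
/-- If a random subset of a finite set `X`, containing every point independently with probability
`p ∈ [2/5, 1/2]`, contains a member of the 7-wise 2-coverable family `F` of `k`-sets with
probability at least `δ`, then `F` has a transversal of size at most
`(3 - 1/p) k + 8 √(k log (4 (k+2) / δ)) + 2`. -/
theorem result (k : ℕ) (F : Set (Finset ℕ)) (hk : ∀ A ∈ F, A.card = k)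
    (hF : ∀ G : Finset (Finset ℕ), (↑G : Set (Finset ℕ)) ⊆ F → G.card ≤ 7 →
      ∃ x y : ℕ, ∀ A ∈ G, x ∈ A ∨ y ∈ A)
    (X : Finset ℕ) (p δ : ℝ) (hp : 2 / 5 ≤ p) (hp1 : p ≤ 1 / 2) (hδ : 0 < δ)
    (hd : δ ≤ ∑ B ∈ X.powerset with (∃ A ∈ F, A ⊆ B),
      p ^ B.card * (1 - p) ^ (X.card - B.card)) :
    ∃ T : Finset ℕ,
      (T.card : ℝ) ≤ (3 - 1 / p) * k + 8 * Real.sqrt (k * Real.log (4 * (k + 2) / δ)) + 2 ∧
      ∀ A ∈ F, ∃ t ∈ T, t ∈ A :=
  Pool.Agent.DY17.main k F hk hF X p δ hp (hp1.trans (by norm_num)) hδ hd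

end Pool.Agent.Results.MP_d6084f_co.MembersInRandomSets
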