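import Pool.Agent.DP17.MainB17

set_option autoImplicit false

namespace Pool.Agent.Results.MP_d6084f_co.PositiveProportion

/-- Let `F` be a 7-wise 2-coverable family of `k`-sets such that a proportion `δ` of the
`k + r`-subsets of a finite set `X` with at least `3(k + r)/2` elements contain a member of `F`.
Then for every `ε ∈ (0, 1/2]` the family has a transversal of size at most
`k/2 + max 0 (2(k + r) - (1 - ε)|X|) + (3/δ)^(40/ε) + 3/2`. -/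
theorem result (k r : ℕ) (F : Set (Finset ℕ)) (hk : ∀ A ∈ F, A.card = k)
    (hF : ∀ G : Finset (Finset ℕ), (↑G : Set (Finset ℕ)) ⊆ F → G.card ≤ 7 →
      ∃ x y : ℕ, ∀ A ∈ G, x ∈ A ∨ y ∈ A)
    (X : Finset ℕ) (δ ε : ℝ) (hδ : 0 < δ) (hε : 0 < ε) (hε1 : ε ≤ 1 / 2)
    (hX : 3 * (k + r) ≤ 2 * X.card)
    (hd : δ * (X.card.choose (k + r) : ℝ) ≤
      ({B : Finset ℕ | B ⊆ X ∧ B.card = k + r ∧ ∃ A ∈ F, A ⊆ B}.ncard : ℝ)) :
    ∃ T : Finset ℕ, (T.card : ℝ) ≤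
        k / 2 + max 0 (2 * (k + r) - (1 - ε) * X.card) + (3 / δ) ^ (40 / ε) + 3 / 2 ∧
      ∀ A ∈ F, ∃ t ∈ T, t ∈ A :=
  Pool.Agent.DP17.B17.main k r F hk hF X δ ε hδ hε hε1 hX hd

end Pool.Agent.Results.MP_d6084f_co.PositiveProportion
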